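import Pool.Agent.helper3.PR.E

/-! PR-G: choice of the level by an energy increment. -/

namespace Pool.Agent.helper1.PR

open Finset

theorem G_bd_of {F : S → ℝ} {a : ℝ} (h0 : ∀ s, 0 ≤ F s) (h1 : ∀ s, F s ≤ a) : Bd F :=
  ⟨a, fun s => by rw [abs_of_nonneg (h0 s)]; exact h1 s⟩

theorem G_fc_abs {r : ℕ} (c : ℤ√2 → Fin r) (i : Fin r) (κ : ℕ) (x : ℤ√2) :
    |fc c i κ x| ≤ 1 := by
  unfold fc
  split_ifs <;> simp

theorem exists_level {m : (S → ℝ) → ℝ} (hm : IsMean m) {r : ℕ} (c : ℤ√2 → Fin r) {ε : ℝ}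
    (hε : 0 < ε) : ∃ Q0 s0 : ℕ, 0 < Q0 ∧ 0 < s0 ∧ ∀ M s : ℕ, 0 < M → 0 < s → Q0 ∣ M → s0 ∣ s →
      ∀ i, m (fun t => inc Q0 s0 M s t.2 (fc c i t.1)) ≤ ε := by
  -- total energy
  set E : ℕ → ℕ → S → ℝ := fun M s t => ∑ i, energy M s t.2 (fc c i t.1) with hE
  have hE0 : ∀ M s t, 0 ≤ E M s t := fun M s t =>
    Finset.sum_nonneg (fun i _ => energy_nonneg _ _ _ _)
  have hE1 : ∀ M s t, E M s t ≤ r := by
    intro M s t
    calc E M s t ≤ ∑ _i : Fin r, (1:ℝ) :=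
          Finset.sum_le_sum (fun i _ => energy_le_one _ _ _ (G_fc_abs c i t.1))
      _ = r := by simp
  have hEb : ∀ M s, Bd (E M s) := fun M s => G_bd_of (hE0 M s) (hE1 M s)
  have hr : m (fun _ => (r:ℝ)) = r := by
    have := hm.smul (r:ℝ) (fun _ => 1) ⟨1, fun s => by simp⟩
    simpa [hm.one] using this
  have hmE : ∀ M s, m (E M s) ≤ r := by
    intro M s
    rw [← hr]
    exact hm.mono _ _ (hEb M s) ⟨r, fun s => by simp⟩ (hE1 M s)
  let A : Set ℝ := {x | ∃ M s : ℕ, 0 < M ∧ 0 < s ∧ x = m (E M s)}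
  have hAne : A.Nonempty := ⟨_, 1, 1, one_pos, one_pos, rfl⟩
  have hAb : BddAbove A := ⟨r, by rintro x ⟨M, s, -, -, rfl⟩; exact hmE M s⟩
  obtain ⟨x, ⟨Q0, s0, hQ0, hs0, rfl⟩, hx⟩ := exists_lt_of_lt_csSup hAne
    (show sSup A - ε < sSup A by linarith)
  refine ⟨Q0, s0, hQ0, hs0, fun M s hM hs hQM hsM i => ?_⟩
  have hincb : ∀ j t, 0 ≤ inc Q0 s0 M s t.2 (fc c j t.1) ∧
      inc Q0 s0 M s ((t : S).2) (fc c j t.1) ≤ 1 := fun j t =>
    ⟨inc_nonneg _ _ _ _ _ _, inc_le_one hQM hsM hs _ (G_fc_abs c j t.1)⟩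
  have hsum : ∀ t : S, ∑ j, inc Q0 s0 M s t.2 (fc c j t.1) = E M s t + (-1) * E Q0 s0 t := by
    intro t
    simp only [hE, inc_eq hQM hsM hs, Finset.sum_sub_distrib]
    ring
  have h1 : m (fun t => inc Q0 s0 M s t.2 (fc c i t.1)) ≤ m (fun t => E M s t + (-1) * E Q0 s0 t) := by
    apply hm.mono
    · exact G_bd_of (fun t => (hincb i t).1) (fun t => (hincb i t).2)
    · refine G_bd_of (a := r) (fun t => ?_) (fun t => ?_)
      · rw [← hsum]; exact Finset.sum_nonneg (fun j _ => (hincb j t).1)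
      · have := hE1 M s t; have := hE0 Q0 s0 t; linarith
    · intro t
      rw [← hsum]
      exact Finset.single_le_sum (f := fun j => inc Q0 s0 M s t.2 (fc c j t.1))
        (fun j _ => (hincb j t).1) (Finset.mem_univ i)
  have hneg : Bd (fun t => (-1) * E Q0 s0 t) :=
    ⟨r, fun t => by
      show |(-1) * E Q0 s0 t| ≤ r
      rw [neg_one_mul, abs_neg, abs_of_nonneg (hE0 _ _ _)]; exact hE1 _ _ _⟩
  rw [hm.add _ _ (hEb M s) hneg, hm.smul (-1) _ (hEb Q0 s0)] at h1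
  have h2 : m (E M s) ≤ sSup A := le_csSup hAb ⟨M, s, hM, hs, rfl⟩
  linarith

end Pool.Agent.helper1.PR
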